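import Mathlib

namespace Pool.Agent.H.MP_8eb3db_al

open FreeGroup PowerSeries

variable {α : Type} [DecidableEq α]

def hd (g : FreeGroup α) : Option (α × Bool) := g.toWord.head?

/-- all nontrivial elements start with a letter of index x -/
def Starts (K : Subgroup (FreeGroup α)) (x : α) : Prop :=
  ∀ g ∈ K, ∀ l, hd g = some l → l.1 = x

lemma hd_ne {g : FreeGroup α} (h : g ≠ 1) : ∃ l, hd g = some l := by
  unfold hd
  cases e : g.toWord with
  | nil => exact absurd (toWord_eq_nil_iff.1 e) h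
  | cons a _ => exact ⟨a, rfl⟩

lemma hd_one : hd (1 : FreeGroup α) = none := by simp [hd]

lemma last_eq (g : FreeGroup α) (l : α × Bool) (h : g.toWord.getLast? = some l) :
    hd g⁻¹ = some (l.1, !l.2) := by
  simp [hd, toWord_inv, invRev, h]

lemma word_mul (k y : FreeGroup α)
    (h : ∀ a ∈ k.toWord.getLast?, ∀ b ∈ y.toWord.head?, a.1 = b.1 → a.2 = b.2) :
    (k * y).toWord = k.toWord ++ y.toWord := by
  rw [toWord_mul]
  apply IsReduced.reduce_eq
  exact List.IsChain.append isReduced_toWord isReduced_toWord h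

lemma word_mul' {K : Subgroup (FreeGroup α)} {x : α} (hK : Starts K x) {k y : FreeGroup α}
    (hk : k ∈ K) (hy : ∀ l, hd y = some l → l.1 ≠ x) : (k * y).toWord = k.toWord ++ y.toWord := by
  apply word_mul
  intro a ha b hb hab
  have h1 := hK _ (K.inv_mem hk) _ (last_eq k a ha)
  exact absurd (hab.symm.trans h1) (hy b hb)

lemma hd_mul {K : Subgroup (FreeGroup α)} {x : α} (hK : Starts K x) {k y : FreeGroup α}
    (hk : k ∈ K) (h1 : k ≠ 1) (hy : ∀ l, hd y = some l → l.1 ≠ x) : hd (k * y) = hd k := by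
  unfold hd
  rw [word_mul' hK hk hy]
  cases e : k.toWord with
  | nil => exact absurd (toWord_eq_nil_iff.1 e) h1
  | cons a _ => rfl

inductive Alt (K : α → Subgroup (FreeGroup α)) : FreeGroup α → Prop
  | one : Alt K 1
  | mul (x : α) (k y : FreeGroup α) : k ∈ K x → k ≠ 1 → Alt K y →
      (∀ l, hd y = some l → l.1 ≠ x) → Alt K (k * y)

variable {K : α → Subgroup (FreeGroup α)}

lemma Alt.dec (hK : ∀ x, Starts (K x) x) {g : FreeGroup α} (h : Alt K g) (x : α) :
    ∃ k ∈ K x, ∃ y, Alt K y ∧ (∀ l, hd y = some l → l.1 ≠ x) ∧ g = k * y := by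
  cases h with
  | one => exact ⟨1, one_mem _, 1, Alt.one, by simp [hd_one], by simp⟩
  | mul z k y a b c d =>
    by_cases e : z = x
    · subst e
      exact ⟨k, a, y, c, d, rfl⟩
    · refine ⟨1, one_mem _, k * y, Alt.mul z k y a b c d, fun l hl => ?_, by simp⟩
      rw [hd_mul (hK z) a b d] at hl
      rw [hK z k a l hl]
      exact e

lemma Alt.mul_left (hK : ∀ x, Starts (K x) x) {g h : FreeGroup α} {x : α} (hh : h ∈ K x)
    (hg : Alt K g) : Alt K (h * g) := by
  obtain ⟨k, a, y, b, c, rfl⟩ := hg.dec hK x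
  rw [← mul_assoc]
  by_cases e : h * k = 1
  · rw [e, one_mul]; exact b
  · exact Alt.mul x _ y (mul_mem hh a) e b c

lemma Alt.mem {g : FreeGroup α} (h : Alt K g) : g ∈ ⨆ x, K x := by
  induction h with
  | one => exact one_mem _
  | mul x k y a _ _ _ ih => exact mul_mem (le_iSup K x a) ih

lemma alt_of_mem (hK : ∀ x, Starts (K x) x) {g : FreeGroup α} (h : g ∈ ⨆ x, K x) : Alt K g := by
  refine Subgroup.iSup_induction K (C := Alt K) h ?_ Alt.one ?_
  · intro x g hg
    simpa using Alt.mul_left hK hg Alt.one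
  · intro a b ha hb
    induction ha with
    | one => simpa using hb
    | mul x k y a _ _ _ ih =>
      rw [mul_assoc]
      exact Alt.mul_left hK a ih

lemma hd_iSup (hK : ∀ x, Starts (K x) x) {g : FreeGroup α} (h : g ∈ ⨆ x, K x) (l : α × Bool)
    (hl : hd g = some l) : ∃ x, ∃ k ∈ K x, hd k = some l := by
  cases alt_of_mem hK h with
  | one => simp [hd_one] at hl
  | mul x k y a b c d => exact ⟨x, k, a, by rw [← hd_mul (hK x) a b d, hl]⟩

lemma dec_unique {L : Subgroup (FreeGroup α)} {x : α} (hL : Starts L x) {k k' y y' : FreeGroup α}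
    (hk : k ∈ L) (hk' : k' ∈ L) (hy : ∀ l, hd y = some l → l.1 ≠ x)
    (hy' : ∀ l, hd y' = some l → l.1 ≠ x) (e : k * y = k' * y') : k = k' := by
  by_contra hne
  have h1 : k'⁻¹ * k ≠ 1 := fun h => hne (inv_mul_eq_one.1 h).symm
  have h2 : y' = (k'⁻¹ * k) * y := by rw [mul_assoc, e]; simp
  have hm := mul_mem (L.inv_mem hk') hk
  obtain ⟨l, hl⟩ := hd_ne h1
  exact hy' l (by rw [h2, hd_mul hL hm h1 hy, hl]) (hL _ hm l hl)

lemma mem_petal {K' : α → Subgroup (FreeGroup α)} (hK' : ∀ x, Starts (K' x) x)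
    (hle : ∀ x, K x ≤ K' x) {x : α} {g : FreeGroup α} (h1 : g ∈ K' x) (h2 : g ∈ ⨆ x, K x) :
    g ∈ K x := by
  have hK : ∀ x, Starts (K x) x := fun x g hg => hK' x g (hle x hg)
  obtain ⟨k, a, y, -, c, e⟩ := (alt_of_mem hK h2).dec hK x
  have := dec_unique (hK' x) h1 (hle x a) (y := 1) (by simp [hd_one]) c (by simpa using e)
  exact this ▸ a

/-- generating series of a set -/
noncomputable def Gam (S : Set (FreeGroup α)) : ℚ⟦X⟧ :=
  PowerSeries.mk (fun n => (({g | g ∈ S ∧ g.norm = n}.ncard : ℕ) : ℚ))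

variable [Fintype α]

lemma sphere_fin (S : Set (FreeGroup α)) (n : ℕ) : {g | g ∈ S ∧ g.norm = n}.Finite := by
  refine Set.Finite.of_finite_image (f := toWord) ((List.finite_length_eq (α × Bool) n).subset ?_)
    toWord_injective.injOn
  rintro _ ⟨g, hg, rfl⟩
  exact hg.2

noncomputable def sp (S : Set (FreeGroup α)) (n : ℕ) : Finset (FreeGroup α) :=
  (sphere_fin S n).toFinset

lemma mem_sp {S : Set (FreeGroup α)} {n : ℕ} {g : FreeGroup α} :
    g ∈ sp S n ↔ g ∈ S ∧ g.norm = n := by simp [sp]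

lemma coeff_Gam (S : Set (FreeGroup α)) (n : ℕ) : coeff n (Gam S) = ((sp S n).card : ℚ) := by
  rw [Gam, coeff_mk, Set.ncard_eq_toFinset_card _ (sphere_fin S n)]
  rfl

lemma Gam_mul {A B C : Set (FreeGroup α)}
    (h1 : ∀ a ∈ A, ∀ b ∈ B, a * b ∈ C ∧ (a * b).norm = a.norm + b.norm)
    (h2 : ∀ c ∈ C, ∃ a ∈ A, ∃ b ∈ B, c = a * b)
    (h3 : ∀ a ∈ A, ∀ b ∈ B, ∀ a' ∈ A, ∀ b' ∈ B, a * b = a' * b' → a = a') :
    Gam C = Gam A * Gam B := by
  ext n
  rw [coeff_mul, coeff_Gam]
  simp only [coeff_Gam]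
  have : (sp C n).card = ((Finset.HasAntidiagonal.antidiagonal n).sigma
      (fun p => sp A p.1 ×ˢ sp B p.2)).card := by
    symm
    refine Finset.card_bij (fun q _ => q.2.1 * q.2.2) ?_ ?_ ?_
    · rintro ⟨⟨i, j⟩, a, b⟩ hq
      simp only [Finset.mem_sigma, Finset.HasAntidiagonal.mem_antidiagonal, Finset.mem_product, mem_sp] at hq
      obtain ⟨e, ⟨a1, a2⟩, b1, b2⟩ := hq
      exact mem_sp.2 ⟨(h1 a a1 b b1).1, by rw [(h1 a a1 b b1).2, a2, b2, e]⟩
    · rintro ⟨⟨i, j⟩, a, b⟩ hq ⟨⟨i', j'⟩, a', b'⟩ hq' e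
      simp only [Finset.mem_sigma, Finset.HasAntidiagonal.mem_antidiagonal, Finset.mem_product, mem_sp] at hq hq'
      obtain ⟨-, ⟨a1, rfl⟩, b1, rfl⟩ := hq
      obtain ⟨-, ⟨a2, rfl⟩, b2, rfl⟩ := hq'
      have e1 : a = a' := h3 a a1 b b1 a' a2 b' b2 e
      subst e1
      have e2 : b = b' := mul_left_cancel e
      subst e2
      rfl
    · intro c hc
      obtain ⟨c1, c2⟩ := mem_sp.1 hc
      obtain ⟨a, a1, b, b1, rfl⟩ := h2 c c1
      refine ⟨⟨(a.norm, b.norm), a, b⟩, ?_, rfl⟩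
      simp only [Finset.mem_sigma, Finset.HasAntidiagonal.mem_antidiagonal, Finset.mem_product, mem_sp]
      exact ⟨by rw [← (h1 a a1 b b1).2, c2], ⟨a1, trivial⟩, b1, trivial⟩
  rw [this, Finset.card_sigma]
  simp

lemma const_Gam (L : Subgroup (FreeGroup α)) : constantCoeff (Gam (L : Set (FreeGroup α))) = 1 := by
  rw [← coeff_zero_eq_constantCoeff_apply, coeff_Gam]
  have : sp (L : Set (FreeGroup α)) 0 = {1} := by
    ext g
    simp only [mem_sp, FreeGroup.norm_eq_zero, Finset.mem_singleton, SetLike.mem_coe]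
    exact ⟨fun h => h.2, fun h => ⟨h ▸ one_mem _, h⟩⟩
  simp [this]

lemma Gam_iSup (hK : ∀ x, Starts (K x) x) :
    1 - (Gam ((⨆ x, K x : Subgroup _) : Set (FreeGroup α)))⁻¹ =
      ∑ x, (1 - (Gam (K x : Set (FreeGroup α)))⁻¹) := by
  classical
  set T : Subgroup (FreeGroup α) := ⨆ x, K x with hT
  let Y : α → Set (FreeGroup α) := fun x => {y | y ∈ T ∧ ∀ l, hd y = some l → l.1 ≠ x}
  have h1 : ∀ x, Gam (T : Set (FreeGroup α)) = Gam (K x : Set (FreeGroup α)) * Gam (Y x) := by
    intro x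
    apply Gam_mul
    · intro a ha b hb
      refine ⟨mul_mem (le_iSup K x ha) hb.1, ?_⟩
      simp only [FreeGroup.norm, word_mul' (hK x) ha hb.2, List.length_append]
    · intro c hc
      obtain ⟨k, a, y, b, d, e⟩ := (alt_of_mem hK hc).dec hK x
      exact ⟨k, a, y, ⟨b.mem, d⟩, e⟩
    · intro a ha b hb a' ha' b' hb' e
      exact dec_unique (hK x) ha ha' hb.2 hb'.2 e
  have h2 : Gam (T : Set (FreeGroup α)) = 1 + ∑ x, (Gam (T : Set (FreeGroup α)) - Gam (Y x)) := by
    ext n
    simp only [map_add, map_sum, map_sub, coeff_Gam, coeff_one]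
    have e1 : ∀ x, ((sp (T : Set (FreeGroup α)) n).card : ℚ) - (sp (Y x) n).card =
        (((sp (T : Set (FreeGroup α)) n).filter
          (fun g => (hd g).map Prod.fst = some x)).card : ℚ) := by
      intro x
      rw [sub_eq_iff_eq_add, ← Finset.card_filter_add_card_filter_not
        (s := sp (T : Set (FreeGroup α)) n) (fun g => (hd g).map Prod.fst = some x)]
      push_cast
      congr 3
      ext g
      simp only [Finset.mem_filter, mem_sp, Y, Set.mem_setOf_eq, SetLike.mem_coe,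
        Option.map_eq_some_iff, not_exists, not_and]
      tauto
    simp only [e1]
    rw [Finset.card_eq_sum_card_fiberwise (f := fun g => (hd g).map Prod.fst)
      (t := Finset.univ) (s := sp (T : Set (FreeGroup α)) n) (fun _ _ => by simp),
      Fintype.sum_option]
    push_cast
    congr 1
    split_ifs with hn
    · have : (sp (T : Set (FreeGroup α)) n).filter (fun g => (hd g).map Prod.fst = none) = {1} := by
        ext g
        simp only [Finset.mem_filter, mem_sp, hn, FreeGroup.norm_eq_zero, Finset.mem_singleton]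
        exact ⟨fun h => h.1.2, fun h => by simp [h, hd_one]⟩
      rw [this]; simp
    · have : (sp (T : Set (FreeGroup α)) n).filter (fun g => (hd g).map Prod.fst = none) = ∅ := by
        ext g
        simp only [Finset.mem_filter, mem_sp, Finset.notMem_empty, iff_false, not_and]
        rintro ⟨-, h⟩
        obtain ⟨l, hl⟩ := hd_ne (g := g) (fun e => hn (by rw [← h, e]; simp))
        simp [hl]
      rw [this]; simp
  have u : ∀ L : Subgroup (FreeGroup α), Gam (L : Set (FreeGroup α)) *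
      (Gam (L : Set (FreeGroup α)))⁻¹ = 1 := fun L =>
    PowerSeries.mul_inv_cancel _ (by rw [const_Gam]; exact one_ne_zero)
  have h3 : ∀ x, (Gam (T : Set (FreeGroup α)) - Gam (Y x)) * (Gam (T : Set (FreeGroup α)))⁻¹ =
      1 - (Gam (K x : Set (FreeGroup α)))⁻¹ := by
    intro x
    have : Gam (Y x) = Gam (T : Set (FreeGroup α)) * (Gam (K x : Set (FreeGroup α)))⁻¹ := by
      rw [h1 x, mul_right_comm, u, one_mul]
    rw [this]
    linear_combination (1 - (Gam (K x : Set (FreeGroup α)))⁻¹) * u T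
  simp only [← h3, ← Finset.sum_mul]
  linear_combination (Gam (T : Set (FreeGroup α)))⁻¹ * h2 - u T

end Pool.Agent.H.MP_8eb3db_al
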