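import Pool.Agent.H.MP_8eb3db_al.A

namespace Pool.Agent.H.MP_8eb3db_al

open FreeGroup PowerSeries

variable {α : Type} [DecidableEq α]

def cj (a : α) (L : Subgroup (FreeGroup α)) : Subgroup (FreeGroup α) :=
  L.map (MulAut.conj (of a)).toMonoidHom

lemma mem_cj {a : α} {L : Subgroup (FreeGroup α)} {g : FreeGroup α} :
    g ∈ cj a L ↔ ∃ h ∈ L, of a * h * (of a)⁻¹ = g := by
  simp [cj]

lemma word_cj {a : α} {L : Subgroup (FreeGroup α)} (hL : ∀ g ∈ L, hd g ≠ some (a, false))
    {h : FreeGroup α} (hh : h ∈ L) (h1 : h ≠ 1) :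
    (of a * h * (of a)⁻¹).toWord = (a, true) :: (h.toWord ++ [(a, false)]) := by
  have e1 : (h * (of a)⁻¹).toWord = h.toWord ++ [(a, false)] := by
    have e : ((of a)⁻¹ : FreeGroup α).toWord = [(a, false)] := by simp [toWord_inv, invRev]
    rw [← e]
    apply word_mul
    rintro ⟨x, b⟩ hx l hl hab
    rw [e] at hl
    simp only [List.head?_cons, Option.mem_def, Option.some.injEq] at hl
    subst hl
    have := hL _ (L.inv_mem hh)
    rw [last_eq h _ hx] at this
    simp only at hab
    subst hab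
    cases b <;> simp_all
  rw [mul_assoc, word_mul, e1]
  · simp
  · rintro l hl ⟨x, b⟩ hx hab
    simp only [toWord_of, List.getLast?_singleton, Option.mem_def, Option.some.injEq] at hl
    subst hl
    have := hL _ hh
    rw [e1] at hx
    unfold hd at this
    cases e : h.toWord with
    | nil => exact absurd (toWord_eq_nil_iff.1 e) h1
    | cons c t =>
      rw [e] at hx this
      simp only [List.cons_append, List.head?_cons, Option.mem_def, Option.some.injEq] at hx this
      simp only at hab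
      subst hab
      cases b <;> simp_all

lemma hd_cj {a : α} {L : Subgroup (FreeGroup α)} (hL : ∀ g ∈ L, hd g ≠ some (a, false))
    {g : FreeGroup α} (hg : g ∈ cj a L) (l : α × Bool) (hl : hd g = some l) : l = (a, true) := by
  obtain ⟨h, hh, rfl⟩ := mem_cj.1 hg
  by_cases h1 : h = 1
  · simp [h1, hd_one] at hl
  · unfold hd at hl
    rw [word_cj hL hh h1] at hl
    simpa using hl.symm

lemma word_zpow (c : α) (z : ℤ) :
    (of c ^ z : FreeGroup α).toWord = List.replicate z.natAbs (c, decide (0 ≤ z)) := by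
  cases z with
  | ofNat n => simp [toWord_of_pow]
  | negSucc n =>
    rw [zpow_negSucc, toWord_inv, toWord_of_pow]
    simp [invRev]

lemma starts_zpow (c : α) (j : ℕ) : Starts (Subgroup.zpowers (of c ^ j : FreeGroup α)) c := by
  rintro g ⟨z, rfl⟩ l hl
  simp only [← zpow_natCast, ← zpow_mul, hd, word_zpow, List.head?_replicate] at hl
  split_ifs at hl
  simp only [Option.some.injEq] at hl
  rw [← hl]

variable [Fintype α]

lemma Gam_cj {a : α} {L : Subgroup (FreeGroup α)} (hL : ∀ g ∈ L, hd g ≠ some (a, false)) :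
    Gam (cj a L : Set (FreeGroup α)) = 1 + X ^ 2 * (Gam (L : Set (FreeGroup α)) - 1) := by
  classical
  have nm : ∀ h ∈ L, h ≠ 1 → (of a * h * (of a)⁻¹).norm = h.norm + 2 := by
    intro h hh h1
    simp [FreeGroup.norm, word_cj hL hh h1]
  ext n
  rw [map_add, coeff_X_pow_mul', coeff_Gam, coeff_one]
  by_cases hn : n = 0
  · subst hn
    have := const_Gam (cj a L)
    rw [← coeff_zero_eq_constantCoeff_apply, coeff_Gam] at this
    simpa using this
  rw [if_neg hn, zero_add]
  by_cases h2 : n ≤ 2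
  · have e : sp (cj a L : Set (FreeGroup α)) n = ∅ := by
      ext g
      simp only [mem_sp, Finset.notMem_empty, iff_false, not_and, SetLike.mem_coe]
      intro hg hn'
      obtain ⟨h, hh, rfl⟩ := mem_cj.1 hg
      by_cases h1 : h = 1
      · simp [h1] at hn'; omega
      · rw [nm h hh h1] at hn'
        exact h1 (FreeGroup.norm_eq_zero.1 (by omega))
    rw [e]
    split_ifs with h3
    · have : n - 2 = 0 := by omega
      simp [this, const_Gam]
    · simp
  · rw [if_pos (by omega), map_sub, coeff_Gam, coeff_one, if_neg (by omega), sub_zero]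
    congr 1
    symm
    refine Finset.card_bij (fun h _ => of a * h * (of a)⁻¹) ?_ ?_ ?_
    · intro h hh
      obtain ⟨h1, h3⟩ := mem_sp.1 hh
      have : h ≠ 1 := fun e => by simp [e] at h3; omega
      exact mem_sp.2 ⟨mem_cj.2 ⟨h, h1, rfl⟩, by rw [nm h h1 this]; omega⟩
    · intro h _ h' _ e
      simpa using e
    · intro g hg
      obtain ⟨h1, h3⟩ := mem_sp.1 hg
      obtain ⟨h, hh, rfl⟩ := mem_cj.1 h1
      have : h ≠ 1 := fun e => by simp [e] at h3; omega
      exact ⟨h, mem_sp.2 ⟨hh, by rw [nm h hh this] at h3; omega⟩, rfl⟩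

lemma coeff_zpow (c : α) {j : ℕ} (hj : 0 < j) (n : ℕ) :
    coeff n (Gam (Subgroup.zpowers (of c ^ j : FreeGroup α) : Set (FreeGroup α))) =
      if n = 0 then 1 else if j ∣ n then 2 else 0 := by
  classical
  have nm : ∀ z : ℤ, (of c ^ z : FreeGroup α).norm = z.natAbs := by
    intro z; simp [FreeGroup.norm, word_zpow]
  have mem : ∀ g, g ∈ sp (Subgroup.zpowers (of c ^ j : FreeGroup α) : Set (FreeGroup α)) n ↔
      j ∣ n ∧ (g = of c ^ (n : ℤ) ∨ g = of c ^ (-(n : ℤ))) := by
    intro g
    rw [mem_sp]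
    constructor
    · rintro ⟨⟨z, rfl⟩, h⟩
      simp only [← zpow_natCast, ← zpow_mul, nm] at h ⊢
      refine ⟨⟨z.natAbs, by rw [← h, Int.natAbs_mul]; simp⟩, ?_⟩
      rcases Int.natAbs_eq (j * z) with e | e
      · left; rw [e, h]
      · right; rw [e, h]
    · rintro ⟨⟨k, rfl⟩, rfl | rfl⟩
      · exact ⟨⟨k, by simp only [← zpow_natCast, ← zpow_mul]; simp⟩, by rw [nm]; simp [Int.natAbs_mul]⟩
      · exact ⟨⟨-k, by simp only [← zpow_natCast, ← zpow_mul]; simp⟩, by rw [nm]; simp [Int.natAbs_mul]⟩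
  split_ifs with h0 h1
  · rw [h0, coeff_zero_eq_constantCoeff_apply, const_Gam]
  · rw [coeff_Gam]
    have : sp (Subgroup.zpowers (of c ^ j : FreeGroup α) : Set (FreeGroup α)) n =
        {of c ^ (n : ℤ), of c ^ (-(n : ℤ))} := by
      ext g; simp [mem, h1]
    rw [this, Finset.card_pair]
    · simp
    · intro e
      have := congrArg toWord e
      rw [word_zpow, word_zpow] at this
      obtain ⟨m, rfl⟩ := Nat.exists_eq_succ_of_ne_zero h0
      simp [List.replicate_succ] at this
      omega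
  · rw [coeff_Gam]
    have : sp (Subgroup.zpowers (of c ^ j : FreeGroup α) : Set (FreeGroup α)) n = ∅ := by
      ext g; simp [mem, h1]
    simp [this]

lemma Gam_zpow (c : α) {j : ℕ} (hj : 0 < j) :
    Gam (Subgroup.zpowers (of c ^ j : FreeGroup α) : Set (FreeGroup α)) * (1 - X ^ j) =
      1 + X ^ j := by
  ext n
  rw [mul_sub, mul_one, map_sub, coeff_mul_X_pow', map_add, coeff_one, coeff_X_pow,
    coeff_zpow c hj, coeff_zpow c hj]
  by_cases h : j ≤ n
  · obtain ⟨m, rfl⟩ := Nat.exists_eq_add_of_le h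
    simp only [le_add_iff_nonneg_right, zero_le, if_true, Nat.add_sub_cancel_left,
      Nat.dvd_add_right (dvd_refl j)]
    by_cases hm : m = 0
    · subst hm; simp [hj.ne']; norm_num
    · simp [hm, hj.ne']
  · rw [if_neg h]
    by_cases h0 : n = 0
    · subst h0; simp [hj.ne]
    · have : ¬ j ∣ n := fun hh => h (Nat.le_of_dvd (Nat.pos_of_ne_zero h0) hh)
      have : n ≠ j := fun e => h e.ge
      simp [*]

end Pool.Agent.H.MP_8eb3db_al
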