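import Mathlib

namespace Pool.Agent.H.MP_8eb3db_al

open PowerSeries

structure Inv (p : ℕ) (M D : ℤ⟦X⟧) : Prop where
  hp : 5 ≤ p
  m0 : ∀ i, 0 ≤ coeff i M
  m1 : ∀ i < p, coeff i M = 0
  m2 : ∀ i, ((coeff i M : ℤ) : ℚ) ≤ 1 + 2 ^ i / 2 ^ (p + 3)
  d0 : ∀ i < 3, coeff i D = 0
  d1 : ∀ i, 3 ≤ i → (1 / 2 + 4 / 2 ^ p) * (2 : ℚ) ^ i ≤ (coeff i D : ℤ)
  d2 : ∀ i, ((coeff i D : ℤ) : ℚ) ≤ (2 - 4 / 2 ^ p) * 2 ^ i

lemma exists_V {p : ℕ} {M D : ℤ⟦X⟧} (h : Inv p M D) {j : ℕ} (hj : 5 ≤ j) :
    ∃ V : ℤ⟦X⟧, (1 + X ^ j) * V = X ^ j + D ∧ (∀ i, 0 ≤ coeff i V) ∧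
      (∀ i, ((coeff i V : ℤ) : ℚ) ≤ 3 * 2 ^ i) ∧ (∀ i < 3, coeff i V = 0) ∧ 0 < coeff 3 V := by
  have hu : (1 + X ^ j : ℤ⟦X⟧) * invOfUnit (1 + X ^ j) 1 = 1 :=
    mul_invOfUnit _ _ (by simp [show j ≠ 0 by omega])
  obtain ⟨V, hV⟩ : ∃ V : ℤ⟦X⟧, (1 + X ^ j) * V = X ^ j + D :=
    ⟨invOfUnit (1 + X ^ j) 1 * (X ^ j + D), by rw [← mul_assoc, hu, one_mul]⟩
  have rec1 : ∀ i, coeff i V + (if j ≤ i then coeff (i - j) V else 0) =
      (if i = j then 1 else 0) + coeff i D := by
    intro i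
    have := congrArg (coeff i) hV
    rwa [add_mul, one_mul, map_add, coeff_X_pow_mul', map_add, coeff_X_pow] at this
  have pp : (0 : ℚ) < 4 / 2 ^ p := by positivity
  have dn : ∀ i, 0 ≤ coeff i D := by
    intro i
    by_cases h3 : i < 3
    · rw [h.d0 i h3]
    · have := h.d1 i (by omega)
      have h2 : (0 : ℚ) ≤ (coeff i D : ℤ) := le_trans (by positivity) this
      exact_mod_cast h2
  have key : ∀ i, 0 ≤ coeff i V ∧ ((coeff i V : ℤ) : ℚ) ≤ 3 * 2 ^ i := by
    intro i
    induction i using Nat.strong_induction_on with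
    | _ i ih =>
      have r := rec1 i
      have d2 := h.d2 i
      have o : (1 : ℚ) ≤ 2 ^ i := one_le_pow₀ (by norm_num)
      have d3 : ((coeff i D : ℤ) : ℚ) ≤ 2 * 2 ^ i := by nlinarith
      by_cases hi : j ≤ i
      · rw [if_pos hi] at r
        obtain ⟨a, b⟩ := ih (i - j) (by omega)
        have d1 := h.d1 i (by omega)
        have e : (2 : ℚ) ^ i = 2 ^ (i - j) * 2 ^ j := by rw [← pow_add]; congr 1; omega
        have e2 : (2 : ℚ) ^ 5 ≤ 2 ^ j := pow_le_pow_right₀ (by norm_num) hj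
        have e3 : (0 : ℚ) < 2 ^ (i - j) := by positivity
        have a' : (0 : ℚ) ≤ (coeff (i - j) V : ℤ) := by exact_mod_cast a
        have r' : ((coeff i V : ℤ) : ℚ) + (coeff (i - j) V : ℤ) =
            (if i = j then 1 else 0) + (coeff i D : ℤ) := by exact_mod_cast r
        constructor
        · have : (0 : ℚ) ≤ (coeff i V : ℤ) := by
            split_ifs at r' <;> nlinarith
          exact_mod_cast this
        · split_ifs at r' <;> linarith
      · rw [if_neg hi, if_neg (by omega), add_zero, zero_add] at r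
        rw [r]
        exact ⟨dn i, by linarith⟩
  refine ⟨V, hV, fun i => (key i).1, fun i => (key i).2, fun i hi => ?_, ?_⟩
  · have r := rec1 i
    rw [if_neg (by omega), if_neg (by omega), add_zero, zero_add] at r
    rw [r, h.d0 i hi]
  · have r := rec1 3
    rw [if_neg (by omega), if_neg (by omega), add_zero, zero_add] at r
    rw [r]
    have := h.d1 3 le_rfl
    have h2 : (0 : ℚ) < (coeff 3 D : ℤ) := lt_of_lt_of_le (by positivity) this
    exact_mod_cast h2

lemma sum_ite_lt (b : ℕ) (k : ℤ) (h0 : 0 ≤ k) (h1 : k ≤ b) :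
    ∑ r : Fin b, (if (r : ℤ) < k then (1 : ℤ) else 0) = k := by
  obtain ⟨k, rfl⟩ := Int.eq_ofNat_of_zero_le h0
  rw [Fin.sum_univ_eq_sum_range (fun r => if (r : ℤ) < k then (1 : ℤ) else 0)]
  simp only [Nat.cast_lt, Finset.sum_boole]
  have : (Finset.range b).filter (fun r => r < k) = Finset.range k := by
    ext r
    simp only [Finset.mem_filter, Finset.mem_range]
    omega
  simp [this]

lemma step {p : ℕ} {M D : ℤ⟦X⟧} (h : Inv p M D) :
    ∃ (e : Fin 3 → Bool) (V : Fin 3 → ℤ⟦X⟧) (M' : Fin 704 → ℤ⟦X⟧),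
      (∀ l : Fin 3, (1 + X ^ (p + l)) * V l = X ^ (p + l) + D) ∧
      M = ∑ l : Fin 3, (if e l then X ^ (p + l) * (1 - V l) else 0) + ∑ r, X ^ 2 * M' r ∧
      (∀ r, Inv (p + 1) (M' r) (D - 2 * M' r + X ^ 2 * (2 * M' r))) ∧
      (M ≠ 0 → ∃ r, M' r ≠ 0) := by
  have hp := h.hp
  choose V v1 v2 v3 v4 v5 using fun l : Fin 3 => exists_V h (j := p + l) (by omega)
  let e : Fin 3 → Bool := fun l => decide (coeff (p + l) M = 1)
  let N : ℤ⟦X⟧ := M - ∑ l, (if e l then X ^ (p + l) * (1 - V l) else 0)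
  let W : Fin 3 → ℕ → ℤ := fun l i => if e l ∧ p + l ≤ i then coeff (i - (p + l)) (V l) else 0
  have cN : ∀ i, coeff i N = coeff i M - ∑ l : Fin 3, (if e l ∧ i = p + l then 1 else 0) +
      ∑ l, W l i := by
    intro i
    simp only [N, map_sub, map_sum, W]
    rw [sub_add, ← Finset.sum_sub_distrib]
    congr 1
    refine Finset.sum_congr rfl (fun l _ => ?_)
    by_cases he : e l = true
    · simp [he, mul_sub, coeff_X_pow, coeff_X_pow_mul']
    · simp [he]
  have W0 : ∀ l i, 0 ≤ W l i := by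
    intro l i
    simp only [W]
    split_ifs
    exacts [v2 _ _, le_rfl]
  have W1 : ∀ l i, i < p + 3 → W l i = 0 := by
    intro l i hi
    simp only [W]
    split_ifs with hh
    exacts [v4 _ _ (by omega), rfl]
  have W2 : ∀ l i, ((W l i : ℤ) : ℚ) ≤ 3 * (2 ^ i / 2 ^ p) := by
    intro l i
    simp only [W]
    split_ifs with hh
    · refine (v3 _ _).trans ?_
      rw [← pow_sub₀ _ (by norm_num) (by omega : p ≤ i) |>.trans (div_eq_mul_inv _ _).symm]
      gcongr
      · norm_num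
      · omega
    · positivity
  have N0 : ∀ i < p + 3, coeff i N = 0 := by
    intro i hi
    rw [cN]
    simp only [W1 _ i hi, Finset.sum_const_zero, add_zero]
    by_cases h1 : i < p
    · rw [h.m1 i h1, Finset.sum_eq_zero (fun l _ => if_neg (by omega))]; simp
    · obtain ⟨l, hl, rfl⟩ : ∃ l, l < 3 ∧ i = p + l := ⟨i - p, by omega, by omega⟩
      rw [Finset.sum_eq_single (⟨l, hl⟩ : Fin 3) (fun b _ hb => if_neg (fun hh => hb (Fin.ext
        (by simp only; omega)))) (by simp)]
      have a := h.m0 (p + l)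
      have b := h.m2 (p + l)
      have c : (2 : ℚ) ^ (p + l) / 2 ^ (p + 3) < 1 := by
        rw [div_lt_one (by positivity)]
        exact pow_lt_pow_right₀ (by norm_num) (by omega)
      have d : coeff (p + l) M < 2 := by
        have : ((coeff (p + l) M : ℤ) : ℚ) < 2 := by linarith
        exact_mod_cast this
      simp only [e, decide_eq_true_eq, and_true]
      split_ifs <;> omega
  have N1 : ∀ i, p + 3 ≤ i → coeff i N = coeff i M + ∑ l, W l i := by
    intro i hi
    rw [cN, Finset.sum_eq_zero (fun l _ => if_neg (by omega))]; simp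
  have N2 : ∀ i, 0 ≤ coeff i N := by
    intro i
    by_cases hi : i < p + 3
    · rw [N0 i hi]
    · rw [N1 i (by omega)]
      exact add_nonneg (h.m0 i) (Finset.sum_nonneg (fun l _ => W0 l i))
  have N3 : ∀ i, ((coeff i N : ℤ) : ℚ) ≤ 11 * (2 ^ i / 2 ^ p) := by
    intro i
    by_cases hi : i < p + 3
    · rw [N0 i hi]; positivity
    · rw [N1 i (by omega), Fin.sum_univ_three]
      push_cast
      have a := h.m2 i
      have b : (2 : ℚ) ^ i / 2 ^ (p + 3) = 2 ^ i / 2 ^ p / 8 := by rw [pow_add]; field_simp; norm_num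
      have c : (1 : ℚ) ≤ 2 ^ i / 2 ^ p := by
        rw [one_le_div (by positivity)]
        exact pow_le_pow_right₀ (by norm_num) (by omega)
      linarith [W2 0 i, W2 1 i, W2 2 i]
  let M' : Fin 704 → ℤ⟦X⟧ := fun r => PowerSeries.mk (fun i => coeff (i + 2) N / 704 +
    if (r : ℤ) < coeff (i + 2) N % 704 then 1 else 0)
  have hs : ∑ r, X ^ 2 * M' r = N := by
    ext i
    rw [← Finset.mul_sum, coeff_X_pow_mul']
    split_ifs with h2
    · simp only [map_sum, M', coeff_mk, Finset.sum_add_distrib, Nat.sub_add_cancel h2]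
      rw [sum_ite_lt 704 _ (by omega) (by omega)]
      simp only [Finset.sum_const, Finset.card_univ, Fintype.card_fin, nsmul_eq_mul]
      omega
    · rw [N0 i (by omega)]
  have M0 : ∀ r i, 0 ≤ coeff i (M' r) := by
    intro r i
    have := N2 (i + 2)
    simp only [M', coeff_mk]
    split_ifs <;> omega
  have M1 : ∀ r, ∀ i < p + 1, coeff i (M' r) = 0 := by
    intro r i hi
    simp only [M', coeff_mk, N0 (i + 2) (by omega)]
    simp
  have M2 : ∀ r i, ((coeff i (M' r) : ℤ) : ℚ) ≤ 1 + 2 ^ i / 2 ^ p / 16 := by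
    intro r i
    have a := N3 (i + 2)
    have b : 704 * coeff i (M' r) ≤ 704 + coeff (i + 2) N := by
      simp only [M', coeff_mk]
      split_ifs <;> omega
    have b' : 704 * ((coeff i (M' r) : ℤ) : ℚ) ≤ 704 + (coeff (i + 2) N : ℤ) := by exact_mod_cast b
    have c : (2 : ℚ) ^ (i + 2) / 2 ^ p = 4 * (2 ^ i / 2 ^ p) := by rw [pow_add]; ring
    linarith
  have M3 : ∀ r i, 2 * ((coeff i (M' r) : ℤ) : ℚ) ≤ 2 * (2 ^ i / 2 ^ p) := by
    intro r i
    by_cases hi : i < p + 1
    · rw [M1 r i hi]; simp only [Int.cast_zero, mul_zero]; positivity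
    · have c : (2 : ℚ) ≤ 2 ^ i / 2 ^ p := by
        rw [le_div_iff₀ (by positivity), ← pow_succ']
        exact pow_le_pow_right₀ (by norm_num) (by omega)
      linarith [M2 r i]
  refine ⟨e, V, M', v1, by rw [hs]; simp [N], fun r => ?_, fun hM => ?_⟩
  · have cD : ∀ i, coeff i (D - 2 * M' r + X ^ 2 * (2 * M' r)) = coeff i D - 2 * coeff i (M' r) +
        if 2 ≤ i then 2 * coeff (i - 2) (M' r) else 0 := by
      intro i
      rw [map_add, map_sub, coeff_X_pow_mul', two_mul, map_add, map_add]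
      split_ifs <;> ring
    have q : ∀ i : ℕ, (4 : ℚ) / 2 ^ (p + 1) * 2 ^ i = 2 * (2 ^ i / 2 ^ p) := by
      intro i; rw [pow_succ]; field_simp; norm_num
    have q' : ∀ i : ℕ, (4 : ℚ) / 2 ^ p * 2 ^ i = 4 * (2 ^ i / 2 ^ p) := by
      intro i; ring
    refine ⟨by omega, M0 r, M1 r, fun i => ?_, fun i hi => ?_, fun i hi => ?_, fun i => ?_⟩
    · have b : (2 : ℚ) ^ i / 2 ^ (p + 1 + 3) = 2 ^ i / 2 ^ p / 16 := by
        rw [add_assoc, pow_add]; field_simp; norm_num
      rw [b]; exact M2 r i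
    · rw [cD, h.d0 i hi, M1 r i (by omega), M1 r (i - 2) (by omega)]; simp
    · rw [cD, if_pos (by omega)]
      push_cast
      have a := h.d1 i hi
      have b : (0 : ℚ) ≤ (coeff (i - 2) (M' r) : ℤ) := by exact_mod_cast M0 r (i - 2)
      rw [add_mul, q'] at a
      rw [add_mul, q]
      linarith [M3 r i]
    · rw [cD]
      have a := h.d2 i
      have b : (0 : ℚ) ≤ (coeff i (M' r) : ℤ) := by exact_mod_cast M0 r i
      have c : (2 : ℚ) ^ (i - 2) / 2 ^ p ≤ 2 ^ i / 2 ^ p :=
        div_le_div_of_nonneg_right (pow_le_pow_right₀ (by norm_num) (Nat.sub_le i 2))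
          (by positivity)
      have d : (0 : ℚ) ≤ 2 ^ i / 2 ^ p := by positivity
      rw [sub_mul, q'] at a
      rw [sub_mul, q]
      split_ifs
      · push_cast
        linarith [M3 r (i - 2)]
      · push_cast
        linarith
  · by_contra hh
    push Not at hh
    have hN : N = 0 := by rw [← hs]; simp [hh]
    apply hM
    ext i
    have ws : ∀ i, 0 ≤ ∑ l, W l i := fun i => Finset.sum_nonneg (fun l _ => W0 l i)
    by_cases hi : p + 3 ≤ i
    · have a := N1 i hi
      rw [hN] at a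
      have := ws i
      have := h.m0 i
      simp only [map_zero] at a ⊢
      omega
    · have he : ∀ l, e l = false := by
        intro l
        by_contra he
        have a := N1 (p + l + 3) (by omega)
        have b : W l (p + l + 3) ≤ ∑ l', W l' (p + l + 3) :=
          Finset.single_le_sum (f := fun l' => W l' (p + l + 3)) (fun l' _ => W0 l' _)
            (Finset.mem_univ l)
        have c : W l (p + l + 3) = coeff 3 (V l) := by
          simp only [W]
          rw [if_pos ⟨by simpa using he, by omega⟩]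
          rw [Nat.add_sub_cancel_left]
        rw [hN] at a
        have := v5 l
        have := h.m0 (p + l + 3)
        simp only [map_zero] at a
        omega
      have a := cN i
      rw [hN] at a
      simp only [he, W1 _ i (by omega)] at a
      simpa using a.symm

end Pool.Agent.H.MP_8eb3db_al
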