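import Pool.Agent.H.MP_8eb3db_al.B
import Pool.Agent.H.MP_8eb3db_al.C

namespace Pool.Agent.H.MP_8eb3db_al

open FreeGroup PowerSeries

def St := {s : ℕ × ℤ⟦X⟧ × ℤ⟦X⟧ // Inv s.1 s.2.1 s.2.2}

abbrev Al := Fin 704 ⊕ Fin 3

noncomputable def ee (s : St) : Fin 3 → Bool := (step s.2).choose
noncomputable def VV (s : St) : Fin 3 → ℤ⟦X⟧ := (step s.2).choose_spec.choose
noncomputable def MM (s : St) : Fin 704 → ℤ⟦X⟧ := (step s.2).choose_spec.choose_spec.choose

lemma spec (s : St) :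
    (∀ l : Fin 3, (1 + X ^ (s.1.1 + l)) * VV s l = X ^ (s.1.1 + l) + s.1.2.2) ∧
      s.1.2.1 = ∑ l : Fin 3, (if ee s l then X ^ (s.1.1 + l) * (1 - VV s l) else 0) +
        ∑ r, X ^ 2 * MM s r ∧
      (∀ r, Inv (s.1.1 + 1) (MM s r) (s.1.2.2 - 2 * MM s r + X ^ 2 * (2 * MM s r))) ∧
      (s.1.2.1 ≠ 0 → ∃ r, MM s r ≠ 0) := (step s.2).choose_spec.choose_spec.choose_spec

noncomputable def child (s : St) (r : Fin 704) : St :=
  ⟨(s.1.1 + 1, MM s r, s.1.2.2 - 2 * MM s r + X ^ 2 * (2 * MM s r)), (spec s).2.2.1 r⟩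

noncomputable def petal (H : St → Subgroup (FreeGroup Al)) (s : St) :
    Al → Subgroup (FreeGroup Al)
  | .inl r => cj (.inl r) (H (child s r))
  | .inr l => Subgroup.zpowers (of (.inr l) ^ (if ee s l then s.1.1 + l else 0))

noncomputable def Hn : ℕ → St → Subgroup (FreeGroup Al)
  | 0, _ => ⊥
  | n + 1, s => ⨆ x, petal (Hn n) s x

noncomputable def HH (s : St) : Subgroup (FreeGroup Al) := ⨆ n, Hn n s

def Good (L : Subgroup (FreeGroup Al)) : Prop := ∀ r, ∀ g ∈ L, hd g ≠ some (.inl r, false)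

lemma petal_starts {H : St → Subgroup (FreeGroup Al)} (hH : ∀ s, Good (H s)) (s : St) (x : Al) :
    Starts (petal H s x) x := by
  cases x with
  | inl r => intro g hg l hl; rw [hd_cj (hH _ r) hg l hl]
  | inr l => exact starts_zpow _ _

lemma good_iSup {H : St → Subgroup (FreeGroup Al)} (hH : ∀ s, Good (H s)) (s : St) :
    Good (⨆ x, petal H s x) := by
  intro r g hg e
  obtain ⟨x, k, hk, h2⟩ := hd_iSup (petal_starts hH s) hg _ e
  have := petal_starts hH s x k hk _ h2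
  subst this
  simpa using hd_cj (hH _ r) hk _ h2

lemma petal_mono {H H' : St → Subgroup (FreeGroup Al)} (h : ∀ s, H s ≤ H' s) (s : St) (x : Al) :
    petal H s x ≤ petal H' s x := by
  cases x with
  | inl r => exact Subgroup.map_mono (h _)
  | inr l => exact le_rfl

lemma Hn_good (n : ℕ) : ∀ s, Good (Hn n s) := by
  induction n with
  | zero =>
    intro s r g hg
    rw [Subgroup.mem_bot.1 hg, hd_one]
    simp
  | succ n ih => exact good_iSup ih

lemma Hn_succ (n : ℕ) : ∀ s, Hn n s ≤ Hn (n + 1) s := by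
  induction n with
  | zero => intro s; exact bot_le
  | succ n ih => intro s; exact iSup_mono (petal_mono ih s)

lemma Hn_mono (s : St) : Monotone (fun n => Hn n s) :=
  monotone_nat_of_le_succ (fun n => Hn_succ n s)

lemma mem_HH {s : St} {g : FreeGroup Al} : g ∈ HH s ↔ ∃ n, g ∈ Hn n s :=
  Subgroup.mem_iSup_of_directed (Hn_mono s).directed_le

lemma Hn_le (n : ℕ) (s : St) : Hn n s ≤ HH s := le_iSup (fun n => Hn n s) n

lemma HH_good (s : St) : Good (HH s) := by
  intro r g hg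
  obtain ⟨n, hn⟩ := mem_HH.1 hg
  exact Hn_good n s r g hn

lemma HH_fix (s : St) : HH s = ⨆ x, petal HH s x := by
  apply le_antisymm
  · refine iSup_le (fun n => (Hn_succ n s).trans (iSup_mono (petal_mono (Hn_le n) s)))
  · refine iSup_le (fun x => ?_)
    cases x with
    | inl r =>
      intro g hg
      obtain ⟨h, hh, rfl⟩ := mem_cj.1 hg
      obtain ⟨n, hn⟩ := mem_HH.1 hh
      exact Hn_le (n + 1) s (le_iSup (petal (Hn n) s) (.inl r) (mem_cj.2 ⟨h, hn, rfl⟩))
    | inr l => exact (le_iSup (petal (Hn 0) s) (.inr l)).trans (Hn_le 1 s)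

noncomputable def q : ℤ⟦X⟧ →+* ℚ⟦X⟧ := PowerSeries.map (Int.castRingHom ℚ)

lemma q_X : q X = X := PowerSeries.map_X _

lemma const_q (f : ℤ⟦X⟧) : constantCoeff (q f) = (coeff 0 f : ℤ) := by
  rw [← coeff_zero_eq_constantCoeff_apply, q, coeff_map]; rfl

noncomputable def tau (s : St) : ℚ⟦X⟧ := 2 * q s.1.2.1 * (1 - q s.1.2.2)⁻¹

lemma unitU (s : St) : (1 - q s.1.2.2) * (1 - q s.1.2.2)⁻¹ = 1 :=
  PowerSeries.mul_inv_cancel _ (by rw [map_sub, const_q, s.2.d0 0 (by norm_num)]; simp)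

lemma const_tau (s : St) : constantCoeff (1 - tau s) = 1 := by
  have := s.2.hp
  simp only [tau, map_sub, _root_.map_mul, const_q, s.2.m1 0 (by omega)]
  simp

lemma dvd_inv {d A B : ℚ⟦X⟧} (hA : constantCoeff A ≠ 0) (hB : constantCoeff B ≠ 0)
    (h : d ∣ A - B) : d ∣ A⁻¹ - B⁻¹ := by
  have e : A⁻¹ - B⁻¹ = (A - B) * (-(A⁻¹ * B⁻¹)) := by
    linear_combination (-A⁻¹) * PowerSeries.mul_inv_cancel B hB +
      B⁻¹ * PowerSeries.mul_inv_cancel A hA
  rw [e]
  exact h.mul_right _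

lemma Gam_bot : Gam ((⊥ : Subgroup (FreeGroup Al)) : Set (FreeGroup Al)) = 1 := by
  ext n
  rw [coeff_one]
  split_ifs with h
  · rw [h, coeff_zero_eq_constantCoeff_apply, const_Gam]
  · rw [coeff_Gam]
    have : sp ((⊥ : Subgroup (FreeGroup Al)) : Set (FreeGroup Al)) n = ∅ := by
      ext g
      simp only [mem_sp, Finset.notMem_empty, iff_false, not_and, SetLike.mem_coe,
        Subgroup.mem_bot]
      rintro rfl
      simpa using fun e => h e.symm
    rw [this]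
    simp

lemma unitG (L : Subgroup (FreeGroup Al)) : Gam (L : Set (FreeGroup Al)) *
    (Gam (L : Set (FreeGroup Al)))⁻¹ = 1 :=
  PowerSeries.mul_inv_cancel _ (by rw [const_Gam]; exact one_ne_zero)

lemma cyc_eq (s : St) (l : Fin 3) : 1 - (Gam (petal HH s (.inr l) : Set (FreeGroup Al)))⁻¹ =
    2 * q (if ee s l then X ^ (s.1.1 + l) * (1 - VV s l) else 0) * (1 - q s.1.2.2)⁻¹ := by
  have hp := s.2.hp
  by_cases he : ee s l = true
  · have h1 := Gam_zpow (Sum.inr l : Al) (j := s.1.1 + l) (by omega)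
    have h2 := congrArg q ((spec s).1 l)
    have h3 := unitG (Subgroup.zpowers (of (Sum.inr l : Al) ^ (s.1.1 + l)))
    have h4 := unitU s
    simp only [_root_.map_mul, map_add, _root_.map_one, _root_.map_pow, q_X] at h2
    simp only [petal, he, if_true, _root_.map_mul, map_sub, _root_.map_one, _root_.map_pow, q_X]
    have hne : (1 + X ^ (s.1.1 + l) : ℚ⟦X⟧) ≠ 0 := by
      intro e
      have := congrArg constantCoeff e
      rw [map_add, _root_.map_pow, constantCoeff_X, zero_pow (by omega)] at this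
      simp at this
    apply mul_left_cancel₀ hne
    generalize Gam ((Subgroup.zpowers (of (Sum.inr l : Al) ^ (s.1.1 + l)) :
      Subgroup (FreeGroup Al)) : Set (FreeGroup Al)) = g at *
    generalize (X ^ (s.1.1 + l) : ℚ⟦X⟧) = y at *
    linear_combination g⁻¹ * h1 - (1 - y) * h3 + 2 * y * (1 - q s.1.2.2)⁻¹ * h2 - 2 * y * h4
  · have e : petal HH s (.inr l) = ⊥ := by simp [petal, he]
    rw [e, Gam_bot]
    simp [he]

lemma edge_eq (s : St) (r : Fin 704) : (1 + X ^ 2 * ((1 - tau (child s r))⁻¹ - 1))⁻¹ =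
    1 - 2 * q (X ^ 2 * MM s r) * (1 - q s.1.2.2)⁻¹ := by
  symm
  rw [PowerSeries.eq_inv_iff_mul_eq_one (by simp)]
  have h1 := unitU s
  have h2 := unitU (child s r)
  have h3 := PowerSeries.mul_inv_cancel (1 - tau (child s r)) (by rw [const_tau]; simp)
  generalize (1 - tau (child s r))⁻¹ = g at *
  simp only [tau, child, map_add, map_sub, _root_.map_mul, _root_.map_pow, q_X,
    map_ofNat] at h2 h3 ⊢
  generalize (1 - (q s.1.2.2 - 2 * q (MM s r) + X ^ 2 * (2 * q (MM s r))))⁻¹ = iu' at *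
  generalize (1 - q s.1.2.2)⁻¹ = iu at *
  have h4 : (1 - q s.1.2.2 - X ^ 2 * (2 * q (MM s r))) * g =
      1 - q s.1.2.2 + 2 * q (MM s r) - X ^ 2 * (2 * q (MM s r)) := by
    linear_combination (1 - (q s.1.2.2 - 2 * q (MM s r) + X ^ 2 * (2 * q (MM s r)))) * h3 +
      2 * q (MM s r) * g * h2
  linear_combination X ^ 2 * iu * h4 - X ^ 2 * (g - 1) * h1

lemma inv_inv' {A : ℚ⟦X⟧} (h : A * A⁻¹ = 1) : A⁻¹⁻¹ = A := by
  symm
  rw [PowerSeries.eq_inv_iff_mul_eq_one, h]
  intro e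
  have := congrArg constantCoeff h
  rw [_root_.map_mul, e] at this
  simp at this

lemma sum_q {ι : Type} [Fintype ι] (f : ι → ℤ⟦X⟧) (u : ℚ⟦X⟧) :
    ∑ i, 2 * q (f i) * u = 2 * q (∑ i, f i) * u := by
  rw [map_sum, Finset.mul_sum, Finset.sum_mul]

lemma sum_aux {ι : Type} [Fintype ι] {a b : ι → ℚ⟦X⟧} {G T S : ℚ⟦X⟧}
    (h1 : 1 - G = ∑ i, (1 - a i) + S) (h2 : T = ∑ i, b i + S) :
    G - (1 - T) = ∑ i, (a i - (1 - b i)) := by
  simp only [Finset.sum_sub_distrib] at h1 ⊢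
  linear_combination h2 - h1

lemma approx (n : ℕ) : ∀ s, X ^ n ∣ (Gam (HH s : Set (FreeGroup Al)))⁻¹ - (1 - tau s) := by
  induction n with
  | zero => simp
  | succ n ih =>
    intro s
    have h1 := Gam_iSup (petal_starts HH_good s)
    rw [← HH_fix, Fintype.sum_sum_type] at h1
    have h2 : tau s = ∑ r, 2 * q (X ^ 2 * MM s r) * (1 - q s.1.2.2)⁻¹ +
        ∑ l, (1 - (Gam (petal HH s (.inr l) : Set (FreeGroup Al)))⁻¹) := by
      simp only [cyc_eq]
      rw [sum_q, sum_q, tau, ← add_mul, ← mul_add, ← map_add, add_comm, ← (spec s).2.1]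
    have h3 : (Gam (HH s : Set (FreeGroup Al)))⁻¹ - (1 - tau s) =
        ∑ r, ((Gam (petal HH s (.inl r) : Set (FreeGroup Al)))⁻¹ -
          (1 - 2 * q (X ^ 2 * MM s r) * (1 - q s.1.2.2)⁻¹)) := by
      exact sum_aux h1 h2
    rw [h3]
    refine Finset.dvd_sum (fun r _ => ?_)
    rw [← edge_eq]
    refine dvd_inv (by rw [const_Gam]; simp) (by simp) ?_
    have h4 := dvd_inv (by rw [PowerSeries.constantCoeff_inv, const_Gam]; simp)
      (by rw [const_tau]; simp) (ih (child s r))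
    rw [inv_inv' (unitG _)] at h4
    have e : petal HH s (.inl r) = cj (.inl r) (HH (child s r)) := rfl
    rw [e, Gam_cj (HH_good _ r), add_sub_add_left_eq_sub, ← mul_sub, sub_sub_sub_cancel_right,
      pow_succ', pow_two, mul_assoc]
    exact mul_dvd_mul_left _ (h4.mul_left _)

lemma exact_eq (s : St) : (Gam (HH s : Set (FreeGroup Al)))⁻¹ = 1 - tau s := by
  rw [← sub_eq_zero]
  ext n
  exact X_pow_dvd_iff.1 (approx (n + 1) s) n (by omega)

lemma q_inj : Function.Injective q := by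
  intro a b h
  ext n
  have := congrArg (coeff n) h
  simpa [q] using this

lemma ne_HH (n : ℕ) : ∀ s : St, s.1.2.1 ≠ 0 → Hn n s ≠ HH s := by
  induction n with
  | zero =>
    intro s hs e
    have h1 := exact_eq s
    rw [← e, show Hn 0 s = ⊥ from rfl, Gam_bot] at h1
    have h2 := unitU s
    apply hs
    apply q_inj
    rw [map_zero]
    have h3 : (2 : ℚ⟦X⟧) ≠ 0 := by
      intro e
      have := congrArg constantCoeff e
      rw [map_ofNat, map_zero] at this
      norm_num at this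
    apply mul_left_cancel₀ h3
    rw [tau, inv_one] at h1
    linear_combination (1 - q s.1.2.2) * h1 - 2 * q s.1.2.1 * h2
  | succ n ih =>
    intro s hs e
    obtain ⟨r, hr⟩ := (spec s).2.2.2 hs
    apply ih (child s r) hr
    refine le_antisymm (Hn_le _ _) (fun g hg => ?_)
    have h1 : of (Sum.inl r : Al) * g * (of (Sum.inl r : Al))⁻¹ ∈ petal HH s (.inl r) :=
      mem_cj.2 ⟨g, hg, rfl⟩
    have h2 : of (Sum.inl r : Al) * g * (of (Sum.inl r : Al))⁻¹ ∈ Hn (n + 1) s := by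
      rw [e, HH_fix]
      exact le_iSup (petal HH s) _ h1
    have h3 := mem_petal (petal_starts HH_good s) (petal_mono (Hn_le n) s) h1 h2
    obtain ⟨h, hh, e2⟩ := mem_cj.1 h3
    rwa [← mul_left_cancel (mul_right_cancel e2)]

lemma not_fg (s : St) (hs : s.1.2.1 ≠ 0) : ¬ (HH s).FG := by
  rintro ⟨S, hS⟩
  have h1 : ∀ g ∈ S, ∃ n, g ∈ Hn n s := fun g hg =>
    mem_HH.1 (hS ▸ Subgroup.subset_closure hg)
  choose! f hf using h1
  refine ne_HH (S.sup f) s hs (le_antisymm (Hn_le _ _) ?_)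
  rw [← hS, Subgroup.closure_le]
  intro g hg
  exact Hn_mono s (Finset.le_sup hg) (hf g hg)

noncomputable def D0 : ℤ⟦X⟧ := PowerSeries.mk (fun i => if i < 3 then 0 else 2 ^ i)

lemma inv0 : Inv 5 (X ^ 5) D0 := by
  refine ⟨le_rfl, fun i => ?_, fun i hi => ?_, fun i => ?_, fun i hi => ?_, fun i hi => ?_,
    fun i => ?_⟩
  · rw [coeff_X_pow]; split_ifs <;> simp
  · rw [coeff_X_pow, if_neg (by omega)]
  · rw [coeff_X_pow]
    have : (0 : ℚ) ≤ 2 ^ i / 2 ^ (5 + 3) := by positivity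
    split_ifs <;> push_cast <;> linarith
  · simp [D0, hi]
  · rw [D0, coeff_mk, if_neg (by omega)]
    have : (0 : ℚ) ≤ 2 ^ i := by positivity
    push_cast
    nlinarith
  · rw [D0, coeff_mk]
    have : (0 : ℚ) ≤ 2 ^ i := by positivity
    split_ifs <;> push_cast <;> nlinarith

lemma D0_eq : D0 * (1 - 2 * X) = 8 * X ^ 3 := by
  have e : D0 * (1 - 2 * X) = D0 - (C 2 * D0) * X := by
    rw [show (C 2 : ℤ⟦X⟧) = 2 from map_ofNat _ 2]; ring
  rw [e, show (8 : ℤ⟦X⟧) = C 8 from (map_ofNat _ 8).symm]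
  ext n
  rw [map_sub, coeff_C_mul, coeff_X_pow]
  rcases n with _ | n
  · simp [D0]
  · rw [coeff_succ_mul_X, coeff_C_mul]
    simp only [D0, coeff_mk]
    split_ifs <;> first | omega | (subst_vars; norm_num; done) | (rw [pow_succ]; ring) | skip
    all_goals (obtain rfl : n = 2 := by omega)
    all_goals norm_num

noncomputable def s0 : St := ⟨(5, X ^ 5, D0), inv0⟩

theorem main : ¬ (HH s0).FG ∧ (1 - 2 * X - 8 * X ^ 3 - 2 * X ^ 5 * (1 - 2 * X)) *
    Gam (HH s0 : Set (FreeGroup Al)) = 1 - 2 * X - 8 * X ^ 3 := by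
  refine ⟨not_fg s0 (pow_ne_zero 5 X_ne_zero), ?_⟩
  have h1 := unitG (HH s0)
  have h2 := unitU s0
  have h3 := congrArg q D0_eq
  rw [exact_eq] at h1
  simp only [tau, s0, map_sub, _root_.map_mul, _root_.map_pow, q_X, map_ofNat,
    _root_.map_one] at h1 h2 h3
  rw [s0]
  generalize Gam (HH ⟨(5, X ^ 5, D0), inv0⟩ : Set (FreeGroup Al)) = g at *
  generalize (1 - q D0)⁻¹ = iu at *
  linear_combination (1 - 2 * X - 8 * X ^ 3) * h1 + 2 * X ^ 5 * g * (1 - 2 * X) * h2 +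
    2 * X ^ 5 * g * iu * h3

end Pool.Agent.H.MP_8eb3db_al
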